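import Pool.Agent.H2.PO4

/-!
# The elementary closure of the pro-orderable groups is not the class of orderable groups

`grpL` (file `Pool.Agent.H2.PO1`) is the first-order language of groups (product, inverse,
identity) and `grpStr` makes every group a `grpL`-structure. `Orderable`, `ProOrderable` are
defined in `Pool.Agent.H2.PO2`.
-/

open FirstOrder FirstOrder.Language

namespace Pool.Agent.Results.MP_6e5331_al.NotElementaryClosure

open Pool.Agent.H2.PO

/-- **Main theorem.** There is a first-order sentence in the language of groups which holds in
all pro-orderable groups, and fails in some orderable group. -/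
theorem result :
    ∃ φ : grpL.Sentence, (∀ (G : Type) [Group G], ProOrderable G → G ⊨ φ) ∧
      ∃ (G : Type) (_ : Group G), Orderable G ∧ ¬ (G ⊨ φ) := by
  obtain ⟨φ, hφ⟩ := FO.sentence.{0} (P := fun _ _ w => Theta w) fo_Theta
  refine ⟨φ, fun G _ hG => (hφ G).2 fun w => theta_of_pro hG w, GG, inferInstance,
    orderable_GG, fun h => ?_⟩
  exact not_theta ((hφ GG).1 h w0)

end Pool.Agent.Results.MP_6e5331_al.NotElementaryClosure
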